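import Pool.Agent.Helper81.PC.St
import Mathlib.Tactic.Linarith
import Mathlib.Tactic.Ring

set_option autoImplicit false

/-!
# Packed checker (S15955), module I: `nzN`, `exN`
-/

namespace Pool.Agent.Helper83.PC

open Helper11.CT Helper55.PC Helper81.PC

theorem I_axpy (hA : StA) {α β γ k : ℤ} {e f : List ℤ} {v w kn : ℕ} (h1 : Rep α e v)
    (h2 : Rep β f w) (hk : (kn : ℤ) ≡ k [ZMOD ZZ]) (hα : 0 ≤ α) (hβ : 0 ≤ β)
    (hγ : |k| * α + β ≤ γ) :
    Rep γ (axpy k e f) (Nat.add (Nat.mul kn v) w) := by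
  obtain ⟨a1, a2, a3⟩ := hA k e f
  refine ⟨a2.trans (max_le h1.len h2.len), fun x hx => (a3 α β hα hβ h1.bd h2.bd x hx).trans hγ, ?_⟩
  rw [a1]
  show (((kn * v + w : ℕ)) : ℤ) ≡ _ [ZMOD ZZ]
  push_cast
  exact (hk.mul h1.cg).add h2.cg

theorem I_sub (hA : StA) {α β γ : ℤ} {e f : List ℤ} {v w : ℕ} (h1 : Rep α e v)
    (h2 : Rep β f w) (hα : 0 ≤ α) (hβ : 0 ≤ β) (hγ : α + β ≤ γ) :
    Rep γ (axpy (-1) e f) (Nat.add (ng v) w) := by
  obtain ⟨a1, a2, a3⟩ := hA (-1) e f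
  refine ⟨a2.trans (max_le h1.len h2.len), fun x hx => ?_, ?_⟩
  · have := a3 α β hα hβ h1.bd h2.bd x hx
    rw [abs_neg, abs_one, one_mul] at this
    exact this.trans hγ
  · rw [a1, neg_one_mul]
    show (((ng v + w : ℕ)) : ℤ) ≡ _ [ZMOD ZZ]
    push_cast
    exact ((ng_cg v).trans h1.cg.neg).add h2.cg

theorem I_neg (hA : StA) {α γ : ℤ} {e : List ℤ} {v : ℕ} (h1 : Rep α e v)
    (hα : 0 ≤ α) (hγ : α ≤ γ) : Rep γ (axpy (-1) e []) (ng v) := by
  have h := I_sub hA h1 (Rep.nil 0) hα le_rfl (by simpa using hγ)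
  exact h

theorem I_succ (m : ℕ) : ((Nat.succ (mr m) : ℕ) : ℤ) ≡ mz m + 1 [ZMOD ZZ] := by
  have h : ((Nat.succ (mr m) : ℕ) : ℤ) = ((mr m : ℕ) : ℤ) + 1 := by push_cast; ring
  rw [h]
  exact (mr_cg m).add_right 1

theorem I_nz (hA : StA) (hE : StE) (hH : StH) (K : Cls) (Q : List Con) (v : List ℤ) (z : NZn)
    (hK : Good K) (hQ : GQ Q) (hl : v.length ≤ 7) (hv : ∀ x ∈ v, |x| ≤ 24)
    (h : nzN (pkK K) (pkQ Q) v z = true) : nzc K Q v (toNZ z) = true := by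
  cases z with
  | k =>
    cases v with
    | nil => exact absurd h (by show ¬ (false = true); simp)
    | cons a v =>
      exact hH K.known v hK.kn (by rw [List.length_cons] at hl; omega) (fun x hx => hv x (List.mem_cons_of_mem _ hx)) h
  | r m c1 c2 =>
    have h' : an (ctN (pkQ Q) c1 (Nat.add (Nat.mul (mn m) (pkK K).P) (fRN (pkK K) v)))
      (ctN (pkQ Q) c2 (Nat.add (Nat.mul (Nat.succ (mr m)) (pkK K).P) (ng (fRN (pkK K) v)))) = true := h
    rw [an_iff] at h'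
    have hm := mz_bd m
    have r1 : Rep 100000 (axpy (-mz m) K.P (fR K v))
        (Nat.add (Nat.mul (mn m) (pkK K).P) (fRN (pkK K) v)) :=
      I_axpy hA hK.P (hK.R v hv) (mn_cg m) (by norm_num) (by norm_num) (by rw [abs_neg]; linarith)
    have hm1 : |mz m + 1| ≤ 9 := by
      have := abs_add_le (mz m) 1
      rw [abs_one] at this
      linarith
    have r2 : Rep 100000 (axpy (mz m + 1) K.P (axpy (-1) (fR K v) []))
        (Nat.add (Nat.mul (Nat.succ (mr m)) (pkK K).P) (ng (fRN (pkK K) v))) :=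
      I_axpy hA hK.P (I_neg hA (hK.R v hv) (by norm_num) (le_refl 576)) (I_succ m) (by norm_num)
        (by norm_num) (by linarith)
    show (cert Q (toC c1) (axpy (-mz m) K.P (fR K v)) &&
      cert Q (toC c2) (axpy (mz m + 1) K.P (axpy (-1) (fR K v) []))) = true
    rw [Bool.and_eq_true]
    exact ⟨hE Q c1 _ _ hQ r1 h'.1, hE Q c2 _ _ hQ r2 h'.2⟩
  | x m c1 c2 =>
    have h' : an (ctN (pkQ Q) c1 (Nat.add (Nat.mul (mn m) (pkK K).P) (fXN (pkK K) v)))
      (ctN (pkQ Q) c2 (Nat.add (Nat.mul (Nat.succ (mr m)) (pkK K).P) (ng (fXN (pkK K) v)))) = true := h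
    rw [an_iff] at h'
    have hm := mz_bd m
    have r1 : Rep 100000 (axpy (-mz m) K.P (fX K v))
        (Nat.add (Nat.mul (mn m) (pkK K).P) (fXN (pkK K) v)) :=
      I_axpy hA hK.P (hK.X v hv) (mn_cg m) (by norm_num) (by norm_num) (by rw [abs_neg]; linarith)
    have hm1 : |mz m + 1| ≤ 9 := by
      have := abs_add_le (mz m) 1
      rw [abs_one] at this
      linarith
    have r2 : Rep 100000 (axpy (mz m + 1) K.P (axpy (-1) (fX K v) []))
        (Nat.add (Nat.mul (Nat.succ (mr m)) (pkK K).P) (ng (fXN (pkK K) v))) :=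
      I_axpy hA hK.P (I_neg hA (hK.X v hv) (by norm_num) (le_refl 576)) (I_succ m) (by norm_num)
        (by norm_num) (by linarith)
    show (cert Q (toC c1) (axpy (-mz m) K.P (fX K v)) &&
      cert Q (toC c2) (axpy (mz m + 1) K.P (axpy (-1) (fX K v) []))) = true
    rw [Bool.and_eq_true]
    exact ⟨hE Q c1 _ _ hQ r1 h'.1, hE Q c2 _ _ hQ r2 h'.2⟩
  | i s c1 c2 =>
    have h' : an (izero (tau v)) (an (ctN (pkQ Q) c1 (Nat.add (Nat.mul (mr s) (pkK K).D)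
      (fIN (pkK K) v))) (ctN (pkQ Q) c2 (Nat.add (ng (Nat.add (Nat.mul (mr s) (pkK K).D)
      (fIN (pkK K) v))) (pkK K).D))) = true := h
    rw [an_iff, an_iff] at h'
    have hm := mz_bd s
    have r1 : Rep 1000 (axpy (mz s) K.D (fI K v))
        (Nat.add (Nat.mul (mr s) (pkK K).D) (fIN (pkK K) v)) :=
      I_axpy hA hK.D (hK.I v hv) (mr_cg s) (by norm_num) (by norm_num) (by linarith)
    have r2 : Rep 100000 (axpy (-1) (axpy (mz s) K.D (fI K v)) K.D)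
        (Nat.add (ng (Nat.add (Nat.mul (mr s) (pkK K).D) (fIN (pkK K) v))) (pkK K).D) :=
      I_sub hA r1 hK.D (by norm_num) (by norm_num) (by norm_num)
    show (izero (tau v) && cert Q (toC c1) (axpy (mz s) K.D (fI K v)) &&
      cert Q (toC c2) (axpy (-1) (axpy (mz s) K.D (fI K v)) K.D)) = true
    rw [Bool.and_eq_true, Bool.and_eq_true]
    exact ⟨⟨h'.1, hE Q c1 _ _ hQ (r1.mono (by norm_num)) h'.2.1⟩, hE Q c2 _ _ hQ r2 h'.2.2⟩

theorem hI (hA : StA) (hE : StE) (hH : StH) : StI := by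
  refine ⟨fun K Q v z hK hQ hl hv h => I_nz hA hE hH K Q v z hK hQ hl hv h, ?_⟩
  intro K Q n c1 c2 z hK hQ hl hn h
  have h' : an (t1 (tau n)) (an (ctN (pkQ Q) c1 (fIN (pkK K) n))
    (an (ctN (pkQ Q) c2 (Nat.add (ng (fIN (pkK K) n)) (pkK K).D))
    (orr (izero (tau n)) (nzN (pkK K) (pkQ Q) n z)))) = true := h
  rw [an_iff, an_iff, an_iff, orr_iff] at h'
  obtain ⟨h1, h2, h3, h4⟩ := h'
  show (t1 (tau n) && cert Q (toC c1) (fI K n) && cert Q (toC c2) (axpy (-1) (fI K n) K.D) &&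
    (izero (tau n) || nzc K Q n (toNZ z))) = true
  rw [Bool.and_eq_true, Bool.and_eq_true, Bool.and_eq_true, Bool.or_eq_true]
  refine ⟨⟨⟨h1, hE Q c1 _ _ hQ ((hK.I n hn).mono (by norm_num)) h2⟩,
    hE Q c2 _ _ hQ (I_sub hA (hK.I n hn) hK.D (by norm_num) (by norm_num) (by norm_num)) h3⟩, ?_⟩
  rcases h4 with h4 | h4
  · exact Or.inl h4
  · exact Or.inr (I_nz hA hE hH K Q n z hK hQ hl hn h4)

end Pool.Agent.Helper83.PC
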